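import Pool.Agent.H38.CM.Sub

open Pool.Agent.H38.Sub

theorem Pool.Agent.Results.MP_88f7c7_lc.Undec.result :
    ∃ τ : Fin 6 → List (Fin 6), ¬ ComputablePred fun G : List (ℕ × List (Fin 6 ⊕ ℕ)) =>
      ∃ w : List (Fin 6), w ∈ (cfg G).language ∧ w ∈ B (X τ) :=
  ⟨tau, main⟩
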